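import Mathlib
import Pool.Agent.TH904.CP
import Pool.Agent.H381R2.HR.Main

/-!
# Large complete pairwise coprime sequences in short intervals

Answer to Q1 of MP_f73150_nt (negative): the equality `max_m F(m,k) = π(k) + 1` fails for `k = 9`
(explicitly) and for every sufficiently large `k`, by a margin of at least
`α k log log log k / (log k)^2` for every `α < 1/2`.
-/

set_option autoImplicit false

open Filter Topology

namespace Pool.Agent.Results.MP_f73150_nt.LargeCompleteSequences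

open Pool.Agent.TH904.CP

theorem result :
    (∃ A : Finset ℕ, IsComplete 4 9 A ∧ Nat.primeCounting 9 + 2 ≤ A.card) ∧
    (∀ α : ℝ, α < 1 / 2 → ∃ k₀ : ℕ, ∀ k : ℕ, k₀ ≤ k → ∃ m : ℕ, 1 ≤ m ∧ ∃ A : Finset ℕ,
      IsComplete m k A ∧ Nat.primeCounting k + 2 ≤ A.card ∧
        (Nat.primeCounting k : ℝ) +
          α * (k * Real.log (Real.log (Real.log k)) / (Real.log k) ^ 2) ≤ (A.card : ℝ)) := by
  have main : ∀ α : ℝ, α < 1 / 2 → ∃ k₀ : ℕ, ∀ k : ℕ, k₀ ≤ k → ∃ m : ℕ, 1 ≤ m ∧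
      ∃ A : Finset ℕ, IsComplete m k A ∧
        (Nat.primeCounting k : ℝ) +
          α * (k * Real.log (Real.log (Real.log k)) / (Real.log k) ^ 2) ≤ (A.card : ℝ) := by
    intro α hα
    obtain ⟨x0, hx0⟩ := Pool.Agent.H381R2.HR.final hα
    refine ⟨⌈x0⌉₊, fun k hk => ?_⟩
    have hk' : x0 ≤ (k : ℝ) := (Nat.le_ceil x0).trans (by exact_mod_cast hk)
    obtain ⟨S, -, hS1, hS2, hS3⟩ := hx0 k hk'
    rw [Nat.floor_natCast] at hS3
    obtain ⟨m, hm, A, hA, hcard⟩ := transfer k S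
      (fun s hs => ⟨(hS1 s hs).1, by exact_mod_cast (hS1 s hs).2⟩) hS2
    exact ⟨m, hm, A, hA, hS3.trans (by exact_mod_cast hcard)⟩
  refine ⟨⟨_, example_nine, by decide⟩, ?_⟩
  intro α hα
  obtain ⟨k₀, hk₀⟩ := main (max α (1 / 4)) (max_lt hα (by norm_num))
  have hlog : Tendsto (fun k : ℕ => Real.log (k : ℝ)) atTop atTop :=
    Real.tendsto_log_atTop.comp tendsto_natCast_atTop_atTop
  have h1 : ∀ᶠ k : ℕ in atTop, 1 ≤ Real.log (Real.log (Real.log (k : ℝ))) :=
    (Real.tendsto_log_atTop.comp (Real.tendsto_log_atTop.comp hlog)).eventually_ge_atTop 1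
  have h2 : ∀ᶠ k : ℕ in atTop, 1 ≤ Real.log (k : ℝ) := hlog.eventually_ge_atTop 1
  have h3 : ∀ᶠ k : ℕ in atTop, 8 * (Real.log (k : ℝ)) ^ 2 ≤ (k : ℝ) := by
    have hlo : (fun x : ℝ => Real.log x ^ 2) =o[atTop] fun x : ℝ => x :=
      Real.isLittleO_pow_log_id_atTop
    have hb := (hlo.bound (show (0 : ℝ) < 1 / 8 by norm_num))
    have hb' : ∀ᶠ k : ℕ in atTop,
        ‖Real.log (k : ℝ) ^ 2‖ ≤ 1 / 8 * ‖(k : ℝ)‖ :=
      tendsto_natCast_atTop_atTop.eventually hb
    filter_upwards [hb'] with k hk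
    rw [Real.norm_of_nonneg (by positivity), Real.norm_of_nonneg (by positivity)] at hk
    linarith
  obtain ⟨k₁, hk₁⟩ := eventually_atTop.1 (h1.and (h2.and h3))
  refine ⟨max k₀ k₁, fun k hk => ?_⟩
  obtain ⟨m, hm, A, hA, hcard⟩ := hk₀ k ((le_max_left _ _).trans hk)
  obtain ⟨g1, g2, g3⟩ := hk₁ k ((le_max_right _ _).trans hk)
  have hlp : (0 : ℝ) < Real.log (k : ℝ) ^ 2 := by positivity
  have hk0 : (0 : ℝ) ≤ k := Nat.cast_nonneg k
  have h5 : (8 : ℝ) ≤ k * Real.log (Real.log (Real.log k)) / (Real.log k) ^ 2 := by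
    rw [le_div_iff₀ hlp]
    calc (8 : ℝ) * Real.log (k : ℝ) ^ 2 ≤ k := g3
      _ = k * 1 := (mul_one _).symm
      _ ≤ k * Real.log (Real.log (Real.log k)) := mul_le_mul_of_nonneg_left g1 hk0
  refine ⟨m, hm, A, hA, ?_, ?_⟩
  · have h4 : (2 : ℝ) ≤ max α (1 / 4) *
        (k * Real.log (Real.log (Real.log k)) / (Real.log k) ^ 2) := by
      calc (2 : ℝ) = 1 / 4 * 8 := by norm_num
        _ ≤ max α (1 / 4) * (k * Real.log (Real.log (Real.log k)) / (Real.log k) ^ 2) :=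
          mul_le_mul (le_max_right _ _) h5 (by norm_num)
            ((by norm_num : (0 : ℝ) ≤ 1 / 4).trans (le_max_right _ _))
    have h6 : ((Nat.primeCounting k + 2 : ℕ) : ℝ) ≤ (A.card : ℝ) := by
      push_cast
      linarith
    exact_mod_cast h6
  · refine le_trans ?_ hcard
    have : α * (k * Real.log (Real.log (Real.log k)) / (Real.log k) ^ 2) ≤
        max α (1 / 4) * (k * Real.log (Real.log (Real.log k)) / (Real.log k) ^ 2) :=
      mul_le_mul_of_nonneg_right (le_max_left _ _) ((by norm_num : (0 : ℝ) ≤ 8).trans h5)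
    linarith

end Pool.Agent.Results.MP_f73150_nt.LargeCompleteSequences
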